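import Pool.Agent.Helper70.Isg.Goals2

/-!
# Packet DSS of MP_600500_pr
-/

open Finset

noncomputable section

namespace Pool.Agent.Helper43.Isg

open Pool.Agent.Helper70.Isg

variable {V ι : Type} [Fintype V] [DecidableEq V] [DecidableEq ι]

omit [Fintype V] [DecidableEq V] [DecidableEq ι] in
lemma sg_sq (b : Bool) : sg b * sg b = 1 := by cases b <;> simp [sg]

omit [Fintype V] [DecidableEq V] [DecidableEq ι] in
lemma sg_not (b : Bool) : sg (!b) = -sg b := by cases b <;> simp [sg]

omit [DecidableEq V] in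
lemma iE_erase (E : Finset ι) (a b : ι → V) (J : ι → ℝ) (h : V → ℝ) (σ : V → Bool) (e : ι)
    (he : e ∈ E) :
    iE E a b J h σ = J e * (sg (σ (a e)) * sg (σ (b e))) + iE (E.erase e) a b J h σ := by
  unfold iE
  rw [← Finset.add_sum_erase E _ he]
  ring

lemma iZ2_erase (E : Finset ι) (a b : ι → V) (J : ι → ℝ) (h : V → ℝ) (x y : V) (s t : Bool)
    (e : ι) (he : e ∈ E) (c : ℝ)
    (hc : ∀ σ : V → Bool, σ x = s → σ y = t → sg (σ (a e)) * sg (σ (b e)) = c) :
    iZ2 E a b J h x y s t = Real.exp (J e * c) * iZ2 (E.erase e) a b J h x y s t := by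
  unfold iZ2
  rw [Finset.mul_sum]
  refine Finset.sum_congr rfl fun σ _ => ?_
  by_cases hσ : σ x = s ∧ σ y = t
  · rw [if_pos hσ, if_pos hσ, iE_erase E a b J h σ e he, hc σ hσ.1 hσ.2, Real.exp_add]
  · rw [if_neg hσ, if_neg hσ, mul_zero]

/-- flip one spin -/
def flip1 (x : V) (σ : V → Bool) : V → Bool := Function.update σ x (!σ x)

omit [Fintype V] [DecidableEq ι] in
lemma flip1_invol (x : V) : Function.Involutive (flip1 x) := by
  intro σ
  funext v
  by_cases hv : v = x
  · subst hv; simp [flip1]
  · simp [flip1, hv]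

/-- flip all spins -/
def flipA (σ : V → Bool) : V → Bool := fun v => !σ v

omit [Fintype V] [DecidableEq V] [DecidableEq ι] in
lemma flipA_invol : Function.Involutive (flipA (V := V)) := by
  intro σ
  funext v
  simp [flipA]

omit [DecidableEq ι] in
lemma iE_flip1 (E : Finset ι) (a b : ι → V) (J : ι → ℝ) (h : V → ℝ) (x : V)
    (hx : ∀ e ∈ E, a e ≠ x ∧ b e ≠ x) (σ : V → Bool) :
    iE E a b J h (flip1 x σ) = iE E a b J h σ - 2 * (h x * sg (σ x)) := by
  unfold iE
  have h1 : ∑ e ∈ E, J e * (sg (flip1 x σ (a e)) * sg (flip1 x σ (b e)))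
      = ∑ e ∈ E, J e * (sg (σ (a e)) * sg (σ (b e))) := by
    refine Finset.sum_congr rfl fun e he => ?_
    simp [flip1, (hx e he).1, (hx e he).2]
  rw [h1]
  rw [← Finset.add_sum_erase Finset.univ (fun v => h v * sg (flip1 x σ v)) (Finset.mem_univ x),
    ← Finset.add_sum_erase Finset.univ (fun v => h v * sg (σ v)) (Finset.mem_univ x)]
  have h2 : ∑ v ∈ Finset.univ.erase x, h v * sg (flip1 x σ v)
      = ∑ v ∈ Finset.univ.erase x, h v * sg (σ v) := by
    refine Finset.sum_congr rfl fun v hv => ?_
    simp [flip1, Finset.ne_of_mem_erase hv]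
  rw [h2]
  have h3 : sg (flip1 x σ x) = - sg (σ x) := by simp [flip1, sg_not]
  rw [h3]
  ring

omit [DecidableEq ι] in
lemma iZ2_flip1 (E : Finset ι) (a b : ι → V) (J : ι → ℝ) (h : V → ℝ) (x y : V) (hxy : x ≠ y)
    (hx : ∀ e ∈ E, a e ≠ x ∧ b e ≠ x) (t : Bool) :
    iZ2 E a b J h x y true t = Real.exp (2 * h x) * iZ2 E a b J h x y false t := by
  unfold iZ2
  rw [Finset.mul_sum]
  rw [← Equiv.sum_comp (Function.Involutive.toPerm (flip1 x) (flip1_invol x))
    (fun σ : V → Bool => if σ x = true ∧ σ y = t then Real.exp (iE E a b J h σ) else 0)]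
  refine Finset.sum_congr rfl fun σ _ => ?_
  have e1 : (Function.Involutive.toPerm (flip1 x) (flip1_invol x) σ) = flip1 x σ := rfl
  rw [e1]
  have e2 : flip1 x σ x = !σ x := by simp [flip1]
  have e3 : flip1 x σ y = σ y := by simp [flip1, hxy.symm]
  rw [e2, e3]
  by_cases hσ : σ x = false ∧ σ y = t
  · have hσ' : (!σ x) = true ∧ σ y = t := by simp [hσ.1, hσ.2]
    rw [if_pos hσ', if_pos hσ, iE_flip1 E a b J h x hx, ← Real.exp_add]
    congr 1
    rw [hσ.1]
    simp only [sg]
    simp
    ring
  · have hσ' : ¬ ((!σ x) = true ∧ σ y = t) := by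
      simpa using hσ
    rw [if_neg hσ', if_neg hσ, mul_zero]

omit [DecidableEq ι] in
lemma iZ2_flipA (E : Finset ι) (a b : ι → V) (J : ι → ℝ) (x y : V) (s t : Bool) :
    iZ2 E a b J 0 x y s t = iZ2 E a b J 0 x y (!s) (!t) := by
  unfold iZ2
  rw [← Equiv.sum_comp (Function.Involutive.toPerm flipA (flipA_invol (V := V)))
    (fun σ : V → Bool => if σ x = s ∧ σ y = t then Real.exp (iE E a b J 0 σ) else 0)]
  refine Finset.sum_congr rfl fun σ _ => ?_
  have e1 : (Function.Involutive.toPerm flipA (flipA_invol (V := V)) σ) = flipA σ := rfl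
  rw [e1]
  have e2 : iE E a b J 0 (flipA σ) = iE E a b J 0 σ := by
    unfold iE
    congr 1
    · refine Finset.sum_congr rfl fun e _ => ?_
      simp only [flipA, sg_not]
      ring
    · simp
  rw [e2]
  have e3 : (flipA σ x = s ∧ flipA σ y = t) ↔ (σ x = !s ∧ σ y = !t) := by
    simp only [flipA]
    constructor
    · rintro ⟨h1, h2⟩
      rw [← h1, ← h2]
      simp
    · rintro ⟨h1, h2⟩
      rw [h1, h2]
      simp
  by_cases hσ : σ x = !s ∧ σ y = !t
  · rw [if_pos (e3.mpr hσ), if_pos hσ]
  · rw [if_neg (fun h => hσ (e3.mp h)), if_neg hσ]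

omit [DecidableEq ι] in
lemma dss_free (E : Finset ι) (a b : ι → V) (J : ι → ℝ) (h : V → ℝ) (x y : V) (hxy : x ≠ y)
    (hx : ∀ e ∈ E, a e ≠ x ∧ b e ≠ x) : dssI E a b J h x y := by
  unfold dssI
  have h1 := iZ2_flip1 E a b J h x y hxy hx true
  have h2 := iZ2_flip1 E a b J h x y hxy hx false
  have h3 := iZ2_flip1 E a b J 0 x y hxy hx false
  have h4 := iZ2_flipA E a b J x y true true
  simp only [Pi.zero_apply, mul_zero, Real.exp_zero, one_mul, Bool.not_true] at h3 h4
  rw [h1, h2, h3, h4]
  apply le_of_eq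
  ring

theorem pf_DSS (hstep : S_STEP) : S_DSS := by
  intro V ι _ _ _ E
  induction hn : E.card using Nat.strong_induction_on generalizing E with
  | _ n ih =>
    intro a b J h x y hJ hxy
    by_cases hinc : ∃ e ∈ E, a e = x ∨ b e = x
    · obtain ⟨e, he, hor⟩ := hinc
      have hcard : (E.erase e).card < n := by
        rw [← hn]; exact Finset.card_erase_lt_of_mem he
      have IH : ∀ (a' b' : ι → V) (h' : V → ℝ) (x' y' : V), x' ≠ y' →
          dssI (E.erase e) a' b' J h' x' y' := fun a' b' h' x' y' hne =>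
        ih _ hcard (E.erase e) rfl a' b' J h' x' y' hJ hne
      -- case analysis
      have key : (a e = x ∧ b e = x) ∨ ((a e = x ∧ b e = y) ∨ (a e = y ∧ b e = x)) ∨
          ∃ j, j ≠ x ∧ j ≠ y ∧ ((a e = x ∧ b e = j) ∨ (a e = j ∧ b e = x)) := by
        rcases hor with hax | hbx
        · by_cases h1 : b e = x
          · exact Or.inl ⟨hax, h1⟩
          · by_cases h2 : b e = y
            · exact Or.inr (Or.inl (Or.inl ⟨hax, h2⟩))
            · exact Or.inr (Or.inr ⟨b e, h1, h2, Or.inl ⟨hax, rfl⟩⟩)
        · by_cases h1 : a e = x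
          · exact Or.inl ⟨h1, hbx⟩
          · by_cases h2 : a e = y
            · exact Or.inr (Or.inl (Or.inr ⟨h2, hbx⟩))
            · exact Or.inr (Or.inr ⟨a e, h1, h2, Or.inr ⟨rfl, hbx⟩⟩)
      rcases key with ⟨hax, hbx⟩ | hxyc | ⟨j, hjx, hjy, hj⟩
      · have hI := IH a b h x y hxy
        unfold dssI at hI ⊢
        have hc : ∀ s t (σ : V → Bool), σ x = s → σ y = t →
            sg (σ (a e)) * sg (σ (b e)) = 1 := by
          intro s t σ _ _
          rw [hax, hbx, sg_sq]
        rw [iZ2_erase E a b J h x y true true e he 1 (hc _ _),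
          iZ2_erase E a b J h x y false false e he 1 (hc _ _),
          iZ2_erase E a b J h x y true false e he 1 (hc _ _),
          iZ2_erase E a b J h x y false true e he 1 (hc _ _),
          iZ2_erase E a b J 0 x y true true e he 1 (hc _ _),
          iZ2_erase E a b J 0 x y true false e he 1 (hc _ _)]
        have hp : 0 < Real.exp (J e * 1) := Real.exp_pos _
        calc _ = Real.exp (J e * 1) ^ 4 * (iZ2 (E.erase e) a b J h x y true true *
              iZ2 (E.erase e) a b J h x y false false *
              iZ2 (E.erase e) a b J 0 x y true false ^ 2) := by ring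
          _ ≤ Real.exp (J e * 1) ^ 4 * (iZ2 (E.erase e) a b J h x y true false *
              iZ2 (E.erase e) a b J h x y false true *
              iZ2 (E.erase e) a b J 0 x y true true ^ 2) :=
            mul_le_mul_of_nonneg_left hI (by positivity)
          _ = _ := by ring
      · have hI := IH a b h x y hxy
        unfold dssI at hI ⊢
        have hc : ∀ s t (σ : V → Bool), σ x = s → σ y = t →
            sg (σ (a e)) * sg (σ (b e)) = sg s * sg t := by
          intro s t σ h1 h2
          rcases hxyc with ⟨h3, h4⟩ | ⟨h3, h4⟩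
          · rw [h3, h4, h1, h2]
          · rw [h3, h4, h1, h2, mul_comm]
        rw [iZ2_erase E a b J h x y true true e he _ (hc _ _),
          iZ2_erase E a b J h x y false false e he _ (hc _ _),
          iZ2_erase E a b J h x y true false e he _ (hc _ _),
          iZ2_erase E a b J h x y false true e he _ (hc _ _),
          iZ2_erase E a b J 0 x y true true e he _ (hc _ _),
          iZ2_erase E a b J 0 x y true false e he _ (hc _ _)]
        have s1 : sg true * sg true = 1 := by simp [sg]
        have s2 : sg false * sg false = 1 := by simp [sg]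
        have s3 : sg true * sg false = -1 := by simp [sg]
        have s4 : sg false * sg true = -1 := by simp [sg]
        rw [s1, s2, s3, s4]
        have hm : Real.exp (J e * 1) * Real.exp (J e * -1) = 1 := by
          rw [← Real.exp_add]; simp
        set p := Real.exp (J e * 1)
        set q := Real.exp (J e * -1)
        calc _ = (p * q) ^ 2 * (iZ2 (E.erase e) a b J h x y true true *
              iZ2 (E.erase e) a b J h x y false false *
              iZ2 (E.erase e) a b J 0 x y true false ^ 2) := by ring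
          _ ≤ (p * q) ^ 2 * (iZ2 (E.erase e) a b J h x y true false *
              iZ2 (E.erase e) a b J h x y false true *
              iZ2 (E.erase e) a b J 0 x y true true ^ 2) :=
            mul_le_mul_of_nonneg_left hI (by positivity)
          _ = _ := by ring
      · exact hstep V ι E a b J h x y j e hJ hxy (Ne.symm hjx) (Ne.symm hjy) he hj IH
    · have hx : ∀ e ∈ E, a e ≠ x ∧ b e ≠ x := by
        intro e he
        constructor
        · intro h1; exact hinc ⟨e, he, Or.inl h1⟩
        · intro h1; exact hinc ⟨e, he, Or.inr h1⟩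
      exact dss_free E a b J h x y hxy hx

end Pool.Agent.Helper43.Isg
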