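import Pool.Agent.Helper70.Isg.Goals2

/-!
# Packet LIEB of MP_600500_pr
-/

open Finset

noncomputable section

namespace Pool.Agent.Helper43.Isg

open Pool.Agent.Helper70.Isg

lemma lieb_steps (hleaf : S_LEAF) {V : Type} [Fintype V] [DecidableEq V] {I : Type}
    [DecidableEq I] (J : V → V → ℝ) (h : V → ℝ) (K : ℝ) (y : V) (hJ : ∀ u v, 0 ≤ J u v)
    (hK : 0 ≤ K) (P : Finset I) (w : I → V) :
    gav J (h + ∑ i ∈ P, Pi.single (w i) (2 * K)) (fun σ => sg (σ y)) -
      gav J h (fun σ => sg (σ y)) ≤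
      ∑ i ∈ P, 2 * (Real.tanh K * gav J 0 (fun σ => sg (σ (w i)) * sg (σ y))) := by
  induction P using Finset.induction_on with
  | empty => simp
  | insert i P hi ih =>
    rw [Finset.sum_insert hi, Finset.sum_insert hi]
    have h1 := hleaf V J (h + ∑ i ∈ P, Pi.single (w i) (2 * K) + Pi.single (w i) K) K (w i) y
      hJ hK
    have e1 : h + ∑ i ∈ P, Pi.single (w i) (2 * K) + Pi.single (w i) K + Pi.single (w i) K
        = h + (Pi.single (w i) (2 * K) + ∑ i ∈ P, Pi.single (w i) (2 * K)) := by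
      have : (Pi.single (w i) (2 * K) : V → ℝ) = Pi.single (w i) K + Pi.single (w i) K := by
        rw [← Pi.single_add]; congr 1; ring
      rw [this]; abel
    have e2 : h + ∑ i ∈ P, Pi.single (w i) (2 * K) + Pi.single (w i) K - Pi.single (w i) K
        = h + ∑ i ∈ P, Pi.single (w i) (2 * K) := by abel
    rw [e1, e2] at h1
    linarith

lemma sum_nbrs_mem {d : ℕ} (S : Finset (Site d)) (a : Site d) (F : Site d → ℝ) :
    ∑ b ∈ (nbrs a).filter (· ∈ S), F b = ∑ v : S, if (v : Site d) ∈ nbrs a then F v else 0 := by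
  rw [Finset.sum_coe_sort S (fun v => if v ∈ nbrs a then F v else 0), ← Finset.sum_filter]
  refine Finset.sum_congr ?_ fun _ _ => rfl
  ext v
  simp [and_comm]

lemma frc_eq {d : ℕ} (β : ℝ) (S : Finset (Site d)) (o u : S) :
    frc β S o u = gav (latJ β S) 0 (fun τ => sg (τ o) * sg (τ u)) := by
  have hE : ∀ τ : S → Bool, β * ∑ a ∈ S, ∑ b ∈ (nbrs a).filter (· ∈ S),
        1 / 2 * (sg (glue S τ allT a) * sg (glue S τ allT b)) = gE (latJ β S) 0 τ := by
    intro τ
    unfold gE
    simp only [Pi.zero_apply, zero_mul, Finset.sum_const_zero, add_zero]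
    rw [← Finset.sum_coe_sort S, Finset.mul_sum]
    refine Finset.sum_congr rfl fun a _ => ?_
    rw [sum_nbrs_mem, Finset.mul_sum]
    refine Finset.sum_congr rfl fun b _ => ?_
    have g1 : ∀ c : S, glue S τ allT c = τ c := by
      intro c; simp [glue]
    rw [g1, g1]
    unfold latJ
    split_ifs
    · ring
    · ring
  unfold frc gav
  have g1 : ∀ (τ : S → Bool) (c : S), glue S τ allT c = τ c := by
    intro τ c; simp [glue]
  congr 1
  · refine Finset.sum_congr rfl fun τ _ => ?_
    rw [hE, g1, g1]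
  · refine Finset.sum_congr rfl fun τ _ => ?_
    rw [hE]

lemma ev_sum {d : ℕ} (β : ℝ) (Λ : Finset (Site d)) (η : Cfg d) {I : Type} (P : Finset I)
    (f : I → Cfg d → ℝ) : ev β Λ η (fun σ => ∑ i ∈ P, f i σ) = ∑ i ∈ P, ev β Λ η (f i) := by
  unfold ev
  rw [← Finset.sum_div]
  congr 1
  rw [Finset.sum_comm]
  refine Finset.sum_congr rfl fun τ _ => ?_
  rw [Finset.sum_mul]

lemma ev_mul {d : ℕ} (β : ℝ) (Λ : Finset (Site d)) (η : Cfg d) (c : ℝ)
    (f : Cfg d → ℝ) : ev β Λ η (fun σ => c * f σ) = c * ev β Λ η f := by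
  unfold ev
  rw [← mul_div_assoc, Finset.mul_sum]
  congr 1
  refine Finset.sum_congr rfl fun τ _ => ?_
  ring

lemma ev_sub {d : ℕ} (β : ℝ) (Λ : Finset (Site d)) (η : Cfg d)
    (f g : Cfg d → ℝ) : ev β Λ η (fun σ => f σ - g σ) = ev β Λ η f - ev β Λ η g := by
  unfold ev
  rw [← sub_div, ← Finset.sum_sub_distrib]
  congr 1
  refine Finset.sum_congr rfl fun τ _ => ?_
  ring

theorem pf_LIEB (hevg : S_EVG) (hcons : S_CONS) (hmonb : S_MONB) (hflip : S_FLIP)
    (hleaf : S_LEAF) : S_LIEB := by
  intro d β S Λ o hβ hoS hSΛ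
  set T := Real.tanh β with hT
  -- the function F
  let F : Cfg d → ℝ := fun s => ev β S s (fun σ => sg (σ o))
  let G : Cfg d → ℝ := fun s => T * (∑ u ∈ S, ∑ v ∈ (nbrs u).filter (· ∉ S),
    frc β S o u * sg (s v)) - F s
  let oo : S := ⟨o, hoS⟩
  have hF : ∀ s, F s = gav (latJ β S) (latH β S s) (fun τ => sg (τ oo)) := by
    intro s
    have h1 := hevg d β S s (fun σ => sg (σ o))
    have h2 : (fun τ : S → Bool => sg (glue S τ s o)) = fun τ => sg (τ oo) := by
      funext τ
      simp [glue, hoS, oo]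
    rw [← h2]
    exact h1
  have hmonoG : Monotone G := by
    intro s s' hss
    have hJ : ∀ u v : S, 0 ≤ latJ β S u v := by
      intro u v
      unfold latJ
      split_ifs
      · positivity
      · exact le_refl _
    let P : Finset (Σ _ : S, Site d) := (Finset.univ : Finset S).sigma
      (fun u => ((nbrs (u : Site d)).filter (· ∉ S)).filter
        (fun v => s v = false ∧ s' v = true))
    have h1 := lieb_steps hleaf (latJ β S) (latH β S s) β oo hJ hβ P (fun i => i.1)
    have hsgd : ∀ v, sg (s' v) = sg (s v) + (if s v = false ∧ s' v = true then 2 else 0) := by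
      intro v
      have hv := hss v
      cases h1 : s v <;> cases h2 : s' v
      · simp [sg]
      · simp [sg]; norm_num
      · rw [h1, h2] at hv
        exact absurd hv (by simp)
      · simp [sg]
    have h2 : latH β S s + ∑ i ∈ P, Pi.single i.1 (2 * β) = latH β S s' := by
      funext u
      rw [Pi.add_apply, Finset.sum_apply]
      rw [Finset.sum_sigma]
      unfold latH
      have h3 : ∑ x : S, ∑ v ∈ ((nbrs (x : Site d)).filter (· ∉ S)).filter
          (fun v => s v = false ∧ s' v = true),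
          (Pi.single x (2 * β) : S → ℝ) u = ∑ v ∈ ((nbrs (u : Site d)).filter (· ∉ S)).filter
          (fun v => s v = false ∧ s' v = true), 2 * β := by
        rw [Finset.sum_eq_single u]
        · refine Finset.sum_congr rfl fun v _ => ?_
          simp
        · intro b _ hb
          refine Finset.sum_eq_zero fun v _ => ?_
          simp [Ne.symm hb]
        · intro h; exact absurd (Finset.mem_univ u) h
      rw [h3, Finset.sum_filter (s := (nbrs (u : Site d)).filter (· ∉ S))]
      rw [Finset.mul_sum, Finset.mul_sum, ← Finset.sum_add_distrib]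
      refine Finset.sum_congr rfl fun v _ => ?_
      rw [hsgd v]
      split_ifs <;> ring
    rw [h2] at h1
    have h4 : ∑ i ∈ P, 2 * (Real.tanh β * gav (latJ β S) 0 (fun σ => sg (σ i.1) * sg (σ oo)))
        = T * (∑ u ∈ S, ∑ v ∈ (nbrs u).filter (· ∉ S), frc β S o u * sg (s' v)) -
          T * (∑ u ∈ S, ∑ v ∈ (nbrs u).filter (· ∉ S), frc β S o u * sg (s v)) := by
      rw [Finset.sum_sigma, ← mul_sub, ← Finset.sum_sub_distrib, ← Finset.sum_coe_sort S,
        Finset.mul_sum]
      refine Finset.sum_congr rfl fun u _ => ?_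
      rw [Finset.sum_filter, ← Finset.sum_sub_distrib, Finset.mul_sum]
      refine Finset.sum_congr rfl fun v _ => ?_
      rw [hsgd v]
      have h5 : frc β S o u = gav (latJ β S) 0 (fun σ => sg (σ u) * sg (σ oo)) := by
        have := frc_eq β S oo u
        rw [show (oo : Site d) = o from rfl] at this
        rw [this]
        congr 1
        funext τ
        ring
      rw [h5, ← hT]
      split_ifs <;> ring
    rw [h4, ← hF, ← hF] at h1
    show T * (∑ u ∈ S, ∑ v ∈ (nbrs u).filter (· ∉ S), frc β S o u * sg (s v)) - F s ≤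
      T * (∑ u ∈ S, ∑ v ∈ (nbrs u).filter (· ∉ S), frc β S o u * sg (s' v)) - F s'
    linarith
  have hmain := hmonb d β Λ (fun v => !(allT v)) allT G hβ (fun v _ => by simp [allT]) hmonoG
  have hevG : ∀ η, ev β Λ η G = T * (∑ u ∈ S, ∑ v ∈ (nbrs u).filter (· ∉ S),
      frc β S o u * ev β Λ η (fun σ => sg (σ v))) - ev β Λ η (fun σ => sg (σ o)) := by
    intro η
    have h1 : ev β Λ η F = ev β Λ η (fun σ => sg (σ o)) :=
      (hcons d β S Λ η (fun σ => sg (σ o)) hSΛ).symm
    show ev β Λ η (fun s => T * (∑ u ∈ S, ∑ v ∈ (nbrs u).filter (· ∉ S),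
      frc β S o u * sg (s v)) - F s) = _
    rw [ev_sub, ev_mul, ev_sum, h1]
    congr 2
    refine Finset.sum_congr rfl fun u _ => ?_
    rw [ev_sum]
    refine Finset.sum_congr rfl fun v _ => ?_
    rw [ev_mul]
  have hneg : ∀ v, ev β Λ (fun v => !(allT v)) (fun σ => sg (σ v)) = - mag β Λ v := by
    intro v
    rw [hflip d β Λ allT (fun σ => sg (σ v))]
    have : (fun σ : Cfg d => sg (!(σ v))) = fun σ => (-1) * sg (σ v) := by
      funext σ
      cases σ v <;> simp [sg]
    rw [this, ev_mul]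
    unfold mag
    ring
  rw [hevG, hevG] at hmain
  simp only [hneg] at hmain
  have hm : ∀ v, ev β Λ allT (fun σ => sg (σ v)) = mag β Λ v := fun v => rfl
  simp only [hm] at hmain
  have h6 : ∑ u ∈ S, ∑ v ∈ (nbrs u).filter (· ∉ S), frc β S o u * -mag β Λ v
      = - ∑ u ∈ S, ∑ v ∈ (nbrs u).filter (· ∉ S), frc β S o u * mag β Λ v := by
    rw [← Finset.sum_neg_distrib]
    refine Finset.sum_congr rfl fun u _ => ?_
    rw [← Finset.sum_neg_distrib]
    refine Finset.sum_congr rfl fun v _ => ?_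
    ring
  rw [h6] at hmain
  linarith

end Pool.Agent.Helper43.Isg
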