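import Pool.Agent.Helper70.Isg.Goals2

/-!
# Packet RES of MP_600500_pr
-/

open Finset MeasureTheory

noncomputable section

namespace Pool.Agent.Helper43.Isg

open Pool.Agent.Helper70.Isg

lemma lf_congr (M : ℕ) (c c' : ℕ → Fin 3) (m : ℕ) (h : ∀ i < m, c i = c' i) :
    lf M c m = lf M c' m := by
  induction m with
  | zero => rfl
  | succ m ih =>
    have h1 := ih fun i hi => h i (by omega)
    have h2 := h m (by omega)
    unfold lf
    rw [h1, h2]

lemma unifL_prob {L : ℕ} (hL : 0 < L) : IsProbabilityMeasure (unifL L) := by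
  constructor
  unfold unifL
  rw [Measure.smul_apply, Measure.count_univ]
  simp only [ENat.card_eq_coe_fintype_card, Fintype.card_fin, smul_eq_mul]
  rw [ENat.toENNReal_coe]
  exact ENNReal.inv_mul_cancel (by exact_mod_cast hL.ne') (ENNReal.natCast_ne_top L)

lemma words_card : Measure.count (Set.univ : Set (Fin 6 → Fin 3)) = 3 ^ 6 := by
  rw [Measure.count_univ]
  simp only [ENat.card_eq_coe_fintype_card, Fintype.card_pi, Fintype.card_fin,
    Finset.prod_const, Finset.card_univ]
  rw [ENat.toENNReal_coe]
  norm_num

lemma pL_prob {L : ℕ} (hL : 0 < L) : IsProbabilityMeasure (pL L) := by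
  have := unifL_prob hL
  have : IsProbabilityMeasure (((3 ^ 6 : ENNReal)⁻¹) •
      (Measure.count : Measure (Fin 6 → Fin 3))) := by
    constructor
    rw [Measure.smul_apply, words_card, smul_eq_mul]
    exact ENNReal.inv_mul_cancel (by norm_num) (by norm_num)
  unfold pL
  infer_instance

lemma pL_word {L : ℕ} (hL : 0 < L) (x : Fin 6 → Fin 3) :
    pL L {l | l.2 = x} = (3 ^ 6 : ENNReal)⁻¹ := by
  have := unifL_prob hL
  have h1 : {l : Lett L | l.2 = x} = Set.univ ×ˢ {x} := by
    ext l
    simp
  rw [h1]
  unfold pL
  rw [Measure.prod_prod, measure_univ, one_mul, Measure.smul_apply, Measure.count_singleton,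
    smul_eq_mul, mul_one]

theorem pf_RES (hcnt : S_RCNT) : S_RES := by
  intro d L hL v n
  have := pL_prob hL
  -- the word as a function of the field
  let bad : Finset (Fin (6 * n) → Fin 3) := Finset.univ.filter fun x : Fin (6 * n) → Fin 3 =>
      (lf 6 (fun i => if h : i < 6 * n then x ⟨i, h⟩ else 0) (6 * n)).1 ≠ 0
  have hsub : {y : Site (d + 1) → Lett L | (lf 6 (strm y v) (6 * n)).1 ≠ 0} ⊆
      ⋃ x ∈ bad, {y | ∀ i : Fin (6 * n), strm y v i = x i} := by
    intro y hy
    simp only [Set.mem_iUnion]
    refine ⟨fun i => strm y v i, ?_, fun i => rfl⟩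
    simp only [bad, Finset.mem_filter, Finset.mem_univ, true_and]
    have h1 : lf 6 (fun i => if h : i < 6 * n then strm y v ((⟨i, h⟩ : Fin (6 * n)) : ℕ) else 0)
        (6 * n) = lf 6 (strm y v) (6 * n) := by
      apply lf_congr
      intro i hi
      simp [hi]
    rw [h1]
    exact hy
  have hword : ∀ x : Fin (6 * n) → Fin 3,
      (Measure.infinitePi fun _ : Site (d + 1) => pL L)
        {y | ∀ i : Fin (6 * n), strm y v i = x i} = ((3 ^ 6 : ENNReal)⁻¹) ^ n := by
    intro x
    let e : ℕ → Site (d + 1) := fun j => v + Pi.single 0 (j : ℤ)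
    have he : Function.Injective e := by
      intro j k hjk
      have h1 : (Pi.single 0 (j : ℤ) : Site (d + 1)) = Pi.single 0 (k : ℤ) := by
        simpa [e] using hjk
      have h2 := congrFun h1 0
      simpa using h2
    -- block words
    let w : ℕ → Fin 6 → Fin 3 := fun j r =>
      if h : 6 * j + r < 6 * n then x ⟨6 * j + r, h⟩ else 0
    let B : Site (d + 1) → Set (Lett L) := fun u =>
      {l | ∀ j < n, u = e j → l.2 = w j}
    have hset : {y : Site (d + 1) → Lett L | ∀ i : Fin (6 * n), strm y v i = x i}
        = Set.pi ((Finset.range n).image e : Finset (Site (d + 1))) B := by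
      ext y
      simp only [Set.mem_ofPred_eq, Set.mem_pi, Finset.coe_image, Set.mem_image]
      constructor
      · rintro h u ⟨j, hj, rfl⟩
        intro j' hj' hjj
        have : j = j' := he hjj
        subst this
        funext r
        have h1 := h ⟨6 * j + r, by omega⟩
        unfold strm at h1
        simp only at h1
        have e1 : (6 * j + (r : ℕ)) / 6 = j := by omega
        have e2 : (6 * j + (r : ℕ)) % 6 = r := by omega
        simp only [e1, e2] at h1
        have e3 : w j r = x ⟨6 * j + r, by omega⟩ := by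
          simp only [w]
          rw [dif_pos]
        rw [e3, ← h1]
      · intro h i
        have hi := i.2
        have hj : (i : ℕ) / 6 < n := by omega
        have h1 := h (e ((i : ℕ) / 6)) ⟨(i : ℕ) / 6, by simpa using hj, rfl⟩
          ((i : ℕ) / 6) hj rfl
        unfold strm
        have e4 : y (v + Pi.single 0 (((i : ℕ) / 6 : ℕ) : ℤ)) = y (e ((i : ℕ) / 6)) := rfl
        rw [e4, h1]
        simp only [w]
        have e5 : 6 * ((i : ℕ) / 6) + (i : ℕ) % 6 = i := by omega
        rw [dif_pos (by omega)]
        congr 1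
        ext
        simpa using e5
    rw [hset, Measure.infinitePi_pi]
    · rw [Finset.prod_image (fun a _ b _ h => he h)]
      have h2 : ∀ j ∈ Finset.range n, pL L (B (e j)) = (3 ^ 6 : ENNReal)⁻¹ := by
        intro j hj
        have hj' := Finset.mem_range.mp hj
        have : B (e j) = {l | l.2 = w j} := by
          ext l
          simp only [B, Set.mem_ofPred_eq]
          constructor
          · intro h; exact h j hj' rfl
          · intro h j' _ hjj
            have : j = j' := he hjj
            subst this
            exact h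
        rw [this]
        exact pL_word hL _
      rw [Finset.prod_congr rfl h2, Finset.prod_const, Finset.card_range]
    · intro i _
      exact (Set.toFinite _).measurableSet
  calc ((Measure.infinitePi fun _ : Site (d + 1) => pL L)
        {y | (lf 6 (strm y v) (6 * n)).1 ≠ 0} : ENNReal)
      ≤ ((Measure.infinitePi fun _ : Site (d + 1) => pL L)
        (⋃ x ∈ bad, {y | ∀ i : Fin (6 * n), strm y v i = x i}) : ENNReal) := measure_mono hsub
    _ ≤ ∑ x ∈ bad, ((Measure.infinitePi fun _ : Site (d + 1) => pL L)
        {y | ∀ i : Fin (6 * n), strm y v i = x i} : ENNReal) := measure_biUnion_finset_le _ _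
    _ = bad.card * ((3 ^ 6 : ENNReal)⁻¹) ^ n := by
        rw [Finset.sum_congr rfl fun x _ => hword x, Finset.sum_const, nsmul_eq_mul]
    _ = ENNReal.ofReal ((bad.card : ℝ) * ((3 ^ 6 : ℝ)⁻¹) ^ n) := by
        rw [ENNReal.ofReal_mul (by positivity), ENNReal.ofReal_natCast,
          ENNReal.ofReal_pow (by positivity), ENNReal.ofReal_inv_of_pos (by positivity),
          ENNReal.ofReal_pow (by positivity)]
        norm_num
    _ ≤ ENNReal.ofReal ((7 / 10) ^ n) := by
        apply ENNReal.ofReal_le_ofReal
        have h1 := hcnt n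
        have h2 : ((3 : ℝ) ^ (6 * n)) = (3 ^ 6) ^ n := by rw [pow_mul]
        rw [h2] at h1
        rw [inv_pow]
        have h3 : (0 : ℝ) < (3 ^ 6) ^ n := by positivity
        rw [← div_eq_mul_inv, div_le_iff₀ h3]
        exact h1

end Pool.Agent.Helper43.Isg
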